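import Pool.Agent.Work.MP_465498_pr.Main

/-!
# Frog model with infinite lifespan on amenable vertex-transitive graphs

On every infinite, connected, locally finite, vertex-transitive, amenable graph and for every
`lam > 0`, the frog model with infinite lifespan almost surely visits every vertex as soon as there
is at least one particle at the origin.
-/

namespace Pool.Agent.Results.MP_465498_pr.FrogAmenableCoverage

open MeasureTheory ProbabilityTheory Pool.Agent.Work.MP_465498_pr
open scoped ENNReal NNReal

theorem result {V : Type*} [Infinite V] [MeasurableSpace V] [DiscreteMeasurableSpace V]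
    (G : SimpleGraph V) [G.LocallyFinite] (hconn : G.Connected) (htrans : IsVertexTransitive G)
    (hamen : IsAmenable G) (lam : ℝ≥0) (hlam : 0 < lam)
    {Ω : Type*} [MeasurableSpace Ω] (P : Measure Ω) [IsProbabilityMeasure P]
    (m : FrogModel G lam P) (o : V) :
    P[{ω | m.cluster o ω = Set.univ} | {ω | 0 < m.η o ω}] = 1 ∧
      ∀ᵐ ω ∂P, 0 < m.η o ω → m.cluster o ω = Set.univ :=
  ⟨m.coverage_cond hconn htrans hamen hlam o, m.coverage hconn htrans hamen hlam o⟩

end Pool.Agent.Results.MP_465498_pr.FrogAmenableCoverage
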